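import Pool.Agent.TOR.StmtsX
import Pool.Agent.Helper99_PW.DER

set_option autoImplicit false

/-!
# Squad TOR, row XFR: the pivot operation in the field of fractions
-/

namespace Pool.Agent.TOR.H25

open MvPolynomial
open Pool.Agent.RS (FF io total numer)
open Pool.Agent.EXP99 (DD lam piv)
open Pool.Agent.PW (dd)

section field

variable {K : Type} [Field K] (D : K → K)

/-- rules of a derivation -/
structure IsDer : Prop where
  add : ∀ x y, D (x + y) = D x + D y
  mul : ∀ x y, D (x * y) = x * D y + y * D x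

variable {D}

theorem IsDer.one (hD : IsDer D) : D 1 = 0 := by
  have h := hD.mul 1 1
  rw [one_mul, one_mul] at h
  linear_combination -h

theorem IsDer.zero (hD : IsDer D) : D 0 = 0 := by
  have h := hD.add 0 0
  rw [add_zero] at h
  linear_combination -h

theorem IsDer.sum (hD : IsDer D) {ι : Type} (s : Finset ι) (f : ι → K) :
    D (∑ i ∈ s, f i) = ∑ i ∈ s, D (f i) := by
  classical
  induction s using Finset.induction_on with
  | empty => simp [hD.zero]
  | insert a s ha ih => rw [Finset.sum_insert ha, Finset.sum_insert ha, hD.add, ih]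

theorem dpow (hD : IsDer D) {x : K} (hx : x ≠ 0) (e : ℕ) :
    D (x ^ e) = x ^ e * ((e : K) * (D x / x)) := by
  induction e with
  | zero => simp [hD.one]
  | succ k ih =>
    rw [pow_succ, hD.mul, ih]
    push_cast
    field_simp
    ring

theorem dprod (hD : IsDer D) {ι : Type} [Fintype ι] [DecidableEq ι] (x : ι → K)
    (hx : ∀ v, x v ≠ 0) (e : ι → ℕ) :
    D (∏ v, x v ^ e v) = (∏ v, x v ^ e v) * ∑ v, (e v : K) * (D (x v) / x v) := by
  have h : ∀ s : Finset ι, D (∏ v ∈ s, x v ^ e v) =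
      (∏ v ∈ s, x v ^ e v) * ∑ v ∈ s, (e v : K) * (D (x v) / x v) := by
    intro s
    induction s using Finset.induction_on with
    | empty => simp [hD.one]
    | insert a s ha ih =>
      rw [Finset.prod_insert ha, Finset.sum_insert ha, hD.mul, ih, dpow hD (hx a)]
      ring
  exact h Finset.univ

theorem ddiv (hD : IsDer D) {u v : K} (hv : v ≠ 0) :
    D (u / v) = D u / v - u * D v / (v * v) := by
  have h1 : D (u / v * v) = D u := by rw [div_mul_cancel₀ _ hv]
  rw [hD.mul] at h1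
  field_simp
  field_simp at h1
  linear_combination h1

/-- the identity in one direction -/
theorem one_dir (hD : IsDer D) {N N' μ M M' : ℕ} (φ : Fin μ → K) (g : Fin N → K) (g' : Fin N' → K)
    (a b : Fin M → K) (a' b' : Fin M' → K) (ε : Fin N → ℕ) (ε' : Fin N' → ℕ) (l : Fin μ → K)
    (hφ : ∀ v, φ v ≠ 0) (hg : ∀ v, g v ≠ 0) (hg' : ∀ v, g' v ≠ 0) (hb : ∀ t, b t ≠ 0)
    (hb' : ∀ t, b' t ≠ 0) (A B : K) (hA : A = (∏ v, g v ^ ε v) * ∑ t, a t / b t)
    (hB : B = (∏ v, g' v ^ ε' v) * ∑ t, a' t / b' t) :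
    (∏ v, φ v) * (B * D A - A * D B) +
        A * B * ∑ v, l v * (D (φ v) * ∏ u ∈ Finset.univ.erase v, φ u) =
      (∏ v, φ v) * ((∏ v, g v ^ ε v) * ∏ v, g' v ^ ε' v) *
        ∑ t, ∑ t', (D (a t) * a' t' / (b t * b' t') +
          -1 * (a t * D (b t) * a' t') / (b t * b t * b' t') +
          -1 * (a t * D (a' t')) / (b t * b' t') +
          a t * a' t' * D (b' t') / (b t * b' t' * b' t') +
          ((∑ v, (ε v : K) * (a t * a' t' * D (g v)) / (b t * b' t' * g v)) +
          ((∑ v, -(ε' v : K) * (a t * a' t' * D (g' v)) / (b t * b' t' * g' v)) +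
          ∑ v, l v * (a t * a' t' * D (φ v)) / (b t * b' t' * φ v)))) := by
  classical
  have hL : ∑ v, l v * (D (φ v) * ∏ u ∈ Finset.univ.erase v, φ u) =
      (∏ v, φ v) * ∑ v, l v * (D (φ v) / φ v) := by
    rw [Finset.mul_sum]
    refine Finset.sum_congr rfl fun v _ => ?_
    rw [← Finset.mul_prod_erase Finset.univ φ (Finset.mem_univ v)]
    have := hφ v
    field_simp
  have hDA : D A = (∏ v, g v ^ ε v) * ((∑ t, D (a t / b t)) +
      (∑ t, a t / b t) * ∑ v, (ε v : K) * (D (g v) / g v)) := by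
    rw [hA, hD.mul, dprod hD g hg, hD.sum]
    ring
  have hDB : D B = (∏ v, g' v ^ ε' v) * ((∑ t, D (a' t / b' t)) +
      (∑ t, a' t / b' t) * ∑ v, (ε' v : K) * (D (g' v) / g' v)) := by
    rw [hB, hD.mul, dprod hD g' hg', hD.sum]
    ring
  have hS : (∑ t, ∑ t', (D (a t) * a' t' / (b t * b' t') +
          -1 * (a t * D (b t) * a' t') / (b t * b t * b' t') +
          -1 * (a t * D (a' t')) / (b t * b' t') +
          a t * a' t' * D (b' t') / (b t * b' t' * b' t') +
          ((∑ v, (ε v : K) * (a t * a' t' * D (g v)) / (b t * b' t' * g v)) +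
          ((∑ v, -(ε' v : K) * (a t * a' t' * D (g' v)) / (b t * b' t' * g' v)) +
          ∑ v, l v * (a t * a' t' * D (φ v)) / (b t * b' t' * φ v))))) =
      (∑ t, D (a t / b t)) * (∑ t, a' t / b' t) - (∑ t, a t / b t) * (∑ t, D (a' t / b' t)) +
      (∑ t, a t / b t) * (∑ t, a' t / b' t) * ((∑ v, (ε v : K) * (D (g v) / g v)) -
        (∑ v, (ε' v : K) * (D (g' v) / g' v)) + ∑ v, l v * (D (φ v) / φ v)) := by
    have key : ∀ t t', (D (a t) * a' t' / (b t * b' t') +
          -1 * (a t * D (b t) * a' t') / (b t * b t * b' t') +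
          -1 * (a t * D (a' t')) / (b t * b' t') +
          a t * a' t' * D (b' t') / (b t * b' t' * b' t') +
          ((∑ v, (ε v : K) * (a t * a' t' * D (g v)) / (b t * b' t' * g v)) +
          ((∑ v, -(ε' v : K) * (a t * a' t' * D (g' v)) / (b t * b' t' * g' v)) +
          ∑ v, l v * (a t * a' t' * D (φ v)) / (b t * b' t' * φ v)))) =
        D (a t / b t) * (a' t' / b' t') - a t / b t * D (a' t' / b' t') +
        a t / b t * (a' t' / b' t') * ((∑ v, (ε v : K) * (D (g v) / g v)) -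
          (∑ v, (ε' v : K) * (D (g' v) / g' v)) + ∑ v, l v * (D (φ v) / φ v)) := by
      intro t t'
      have h1 := hb t
      have h2 := hb' t'
      have e1 : ∑ v, (ε v : K) * (a t * a' t' * D (g v)) / (b t * b' t' * g v) =
          a t / b t * (a' t' / b' t') * ∑ v, (ε v : K) * (D (g v) / g v) := by
        rw [Finset.mul_sum]
        refine Finset.sum_congr rfl fun v _ => ?_
        have := hg v
        field_simp
      have e2 : ∑ v, -(ε' v : K) * (a t * a' t' * D (g' v)) / (b t * b' t' * g' v) =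
          -(a t / b t * (a' t' / b' t') * ∑ v, (ε' v : K) * (D (g' v) / g' v)) := by
        rw [Finset.mul_sum, ← Finset.sum_neg_distrib]
        refine Finset.sum_congr rfl fun v _ => ?_
        have := hg' v
        field_simp
      have e3 : ∑ v, l v * (a t * a' t' * D (φ v)) / (b t * b' t' * φ v) =
          a t / b t * (a' t' / b' t') * ∑ v, l v * (D (φ v) / φ v) := by
        rw [Finset.mul_sum]
        refine Finset.sum_congr rfl fun v _ => ?_
        have := hφ v
        field_simp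
      rw [e1, e2, e3, ddiv hD h1, ddiv hD h2]
      field_simp
      ring
    rw [Finset.sum_congr rfl fun t _ => Finset.sum_congr rfl fun t' _ => key t t']
    simp only [Finset.sum_add_distrib, Finset.sum_sub_distrib, ← Finset.mul_sum, ← Finset.sum_mul]
  rw [hS, hL, hDA, hDB, hA, hB]
  ring

theorem swp {J V : Type} [Fintype J] [Fintype V] (Φ a b : K) (c XA XB : J → K) (l P : V → K)
    (X : V → J → K) :
    Φ * (b * (∑ j, c j * XA j) - a * ∑ j, c j * XB j) +
      a * b * ∑ v, l v * ((∑ j, c j * X v j) * P v) =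
    ∑ j, c j * (Φ * (b * XA j - a * XB j) + a * b * ∑ v, l v * (X v j * P v)) := by
  have e1 : ∀ j, c j * (Φ * (b * XA j - a * XB j) + a * b * ∑ v, l v * (X v j * P v)) =
      Φ * (b * (c j * XA j)) - Φ * (a * (c j * XB j)) +
        ∑ v, a * b * (l v * (c j * X v j * P v)) := by
    intro j
    rw [← Finset.mul_sum]
    have e2 : ∑ v, l v * (c j * X v j * P v) = c j * ∑ v, l v * (X v j * P v) := by
      rw [Finset.mul_sum]
      exact Finset.sum_congr rfl fun v _ => by ring
    rw [e2]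
    ring
  rw [Finset.sum_congr rfl fun j _ => e1 j, Finset.sum_add_distrib, Finset.sum_sub_distrib,
    Finset.sum_comm (s := (Finset.univ : Finset J)) (t := (Finset.univ : Finset V))]
  simp only [← Finset.mul_sum, ← Finset.sum_mul]
  ring

theorem swq {J V V' : Type} [Fintype J] [Fintype V] [Fintype V'] (Z : K) (c : J → K)
    (F : J → V → V' → K) :
    ∑ j, c j * (Z * ∑ t, ∑ t', F j t t') = Z * ∑ t, ∑ t', ∑ j, c j * F j t t' := by
  have e1 : ∀ j, c j * (Z * ∑ t, ∑ t', F j t t') = ∑ t, ∑ t', Z * (c j * F j t t') := by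
    intro j
    simp only [← Finset.mul_sum]
    ring
  rw [Finset.sum_congr rfl fun j _ => e1 j, Finset.sum_comm]
  simp only [Finset.mul_sum]
  exact Finset.sum_congr rfl fun t _ => Finset.sum_comm

end field

theorem isDer {E : Type} [Field E] (i : ℕ) : IsDer (K := FF E) (fun x => dd i x) where
  add := fun x y => map_add (dd i) x y
  mul := fun x y => Derivation.leibniz (dd i) x y

theorem one_dirF {E : Type} [Field E] (i : ℕ) {N N' μ M M' : ℕ} (φ : Fin μ → FF E)
    (g : Fin N → FF E) (g' : Fin N' → FF E)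
    (a b : Fin M → FF E) (a' b' : Fin M' → FF E) (ε : Fin N → ℕ) (ε' : Fin N' → ℕ)
    (l : Fin μ → FF E)
    (hφ : ∀ v, φ v ≠ 0) (hg : ∀ v, g v ≠ 0) (hg' : ∀ v, g' v ≠ 0) (hb : ∀ t, b t ≠ 0)
    (hb' : ∀ t, b' t ≠ 0) (A B : FF E) (hA : A = (∏ v, g v ^ ε v) * ∑ t, a t / b t)
    (hB : B = (∏ v, g' v ^ ε' v) * ∑ t, a' t / b' t) :
    (∏ v, φ v) * (B * dd i A - A * dd i B) +
        A * B * ∑ v, l v * (dd i (φ v) * ∏ u ∈ Finset.univ.erase v, φ u) =
      (∏ v, φ v) * ((∏ v, g v ^ ε v) * ∏ v, g' v ^ ε' v) *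
        ∑ t, ∑ t', (dd i (a t) * a' t' / (b t * b' t') +
          -1 * (a t * dd i (b t) * a' t') / (b t * b t * b' t') +
          -1 * (a t * dd i (a' t')) / (b t * b' t') +
          a t * a' t' * dd i (b' t') / (b t * b' t' * b' t') +
          ((∑ v, (ε v : FF E) * (a t * a' t' * dd i (g v)) / (b t * b' t' * g v)) +
          ((∑ v, -(ε' v : FF E) * (a t * a' t' * dd i (g' v)) / (b t * b' t' * g' v)) +
          ∑ v, l v * (a t * a' t' * dd i (φ v)) / (b t * b' t' * φ v)))) :=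
  one_dir (isDer i) φ g g' a b a' b' ε ε' l hφ hg hg' hb hb' A B hA hB

theorem pd_cv (n : ℕ) (j : Fin n) (h : MvPolynomial (Fin n) ℤ) :
    pderiv (j : ℕ) (cv n h) = cv n (pderiv j h) := by
  unfold cv
  show pderiv (j : ℕ) (rename (Fin.val : Fin n → ℕ) (map (Int.castRingHom ℚ) h)) =
    rename (Fin.val : Fin n → ℕ) (map (Int.castRingHom ℚ) (pderiv j h))
  rw [pderiv_rename Fin.val_injective, pderiv_map]

theorem cv_C (n : ℕ) (z : ℤ) : cv n (C z) = C (z : ℚ) := by
  unfold cv
  show rename (Fin.val : Fin n → ℕ) (map (Int.castRingHom ℚ) (C z)) = _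
  rw [map_C, rename_C]
  rfl

theorem io_DD (n : ℕ) (β : Fin n → ℤ) (h : MvPolynomial (Fin n) ℤ) :
    io ℚ (cv n (DD β h)) = ∑ j : Fin n, io ℚ (C (β j : ℚ)) * dd (j : ℕ) (io ℚ (cv n h)) := by
  rw [Pool.Agent.EXP99.DD_eq_sum, map_sum, map_sum]
  refine Finset.sum_congr rfl fun j _ => ?_
  rw [map_mul, map_mul, cv_C, Pool.Agent.PW.H99.dd_io, pd_cv]

theorem xfr : XfrStmt := by
  intro n μ N N' M M' f A B g ε g' ε' a b a' b' β l hf hg hg' hb hb' hA hB
  have inj : Function.Injective (io ℚ) := IsFractionRing.injective _ _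
  have hne : ∀ x : MvPolynomial ℕ ℚ, x ≠ 0 → io ℚ x ≠ 0 := by
    intro x hx h0
    exact hx (inj (by rw [h0, map_zero]))
  have hdd := fun (j : Fin n) => one_dirF (E := ℚ) (j : ℕ) (fun v => io ℚ (cv n (f v)))
    (fun v => io ℚ (g v)) (fun v => io ℚ (g' v)) (fun t => io ℚ (a t)) (fun t => io ℚ (b t))
    (fun t => io ℚ (a' t)) (fun t => io ℚ (b' t)) ε ε' (fun v => io ℚ (C (l v : ℚ)))
    (fun v => hne _ (hf v)) (fun v => hne _ (hg v)) (fun v => hne _ (hg' v))
    (fun v => hne _ (hb v)) (fun v => hne _ (hb' v)) (io ℚ (cv n A)) (io ℚ (cv n B))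
    (by rw [hA, map_prod]; simp only [map_pow]) (by rw [hB, map_prod]; simp only [map_pow])
  have hl : io ℚ (cv n (piv β f l A B)) = ∑ j : Fin n, io ℚ (C (β j : ℚ)) *
      ((∏ v, io ℚ (cv n (f v))) * (io ℚ (cv n B) * dd (j : ℕ) (io ℚ (cv n A)) -
        io ℚ (cv n A) * dd (j : ℕ) (io ℚ (cv n B))) +
        io ℚ (cv n A) * io ℚ (cv n B) * ∑ v, io ℚ (C (l v : ℚ)) *
          (dd (j : ℕ) (io ℚ (cv n (f v))) * ∏ u ∈ Finset.univ.erase v, io ℚ (cv n (f u)))) := by
    rw [← swp]
    unfold piv lam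
    simp only [map_add, map_sub, map_mul, map_prod, map_sum, cv_C, io_DD]
  rw [hl, Finset.sum_congr rfl fun j _ => by rw [hdd j], swq]
  simp only [Fintype.sum_prod_type, Fintype.sum_sum_type, Fin.sum_univ_four]
  rw [map_mul, map_mul, map_prod, map_prod, map_prod]
  simp only [map_pow]
  congr 1
  refine Finset.sum_congr rfl fun t _ => Finset.sum_congr rfl fun t' _ =>
    Finset.sum_congr rfl fun j _ => ?_
  have hC1 : io ℚ (C (-1 : ℚ)) = -1 := by rw [map_neg, map_one, map_neg, map_one]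
  have hCe : ∀ k : ℕ, io ℚ (C (k : ℚ)) = (k : FF ℚ) := by
    intro k
    rw [map_natCast, map_natCast]
  have hCe' : ∀ k : ℕ, io ℚ (C (-(k : ℚ))) = -(k : FF ℚ) := by
    intro k
    rw [map_neg, map_neg, map_natCast, map_natCast]
  simp only [mul_add, Finset.mul_sum, map_mul, Pool.Agent.PW.H99.dd_io, hC1, hCe, hCe',
    mul_div_assoc]

end Pool.Agent.TOR.H25
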